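import Pool.Agent.Helper37_CAP.Stmts

/-! Squad CAP, module SBA: the fixed elements of a difference set, counted by cosets. -/

set_option autoImplicit false

open Finset

namespace Pool.Agent.CAP.H76

open Pool.Agent.CAP

theorem sba (hDSE : DSE) (hFPC : FPC) : SBA := by
  intro k D hk hD t ht hcop htD
  obtain ⟨c₀, hc₀⟩ := hDSE k D hk hD
  have hcop2 : Nat.Coprime t (k + 2) := Nat.Coprime.coprime_mul_left_right hcop
  have hpr : ∀ d, pr k ((t : ZMod (k * (k + 2))) * d) = (t : ZMod (k + 2)) * pr k d := by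
    intro d
    rw [map_mul, map_natCast]
  have hne : ∀ c, c ≠ c₀ → (t : ZMod (k + 2)) * c ≠ c₀ := by
    intro c hc
    obtain ⟨d, hd, hdc⟩ := (hc₀ c).2 hc
    exact (hc₀ _).1 ⟨_, htD d hd, by rw [hpr, hdc]⟩
  have hfix : (t : ZMod (k + 2)) * c₀ = c₀ := by
    have hu : IsUnit (t : ZMod (k + 2)) := (ZMod.isUnit_iff_coprime t (k + 2)).2 hcop2
    obtain ⟨u, hu⟩ := hu
    by_contra hcon
    have h1 : (t : ZMod (k + 2)) * (↑u⁻¹ * c₀) = c₀ := by
      rw [← hu, ← mul_assoc, Units.mul_inv, one_mul]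
    have h2 : (↑u⁻¹ * c₀ : ZMod (k + 2)) = c₀ := by
      by_contra h
      exact hne _ h h1
    rw [h2] at h1
    exact hcon h1
  set F := (Finset.univ : Finset (ZMod (k + 2))).filter
    (fun g => (t : ZMod (k + 2)) * g = g) with hF
  have hFc : F.card = Nat.gcd (t - 1) (k + 2) := hFPC (k + 2) t ht
  have hc₀F : c₀ ∈ F := Finset.mem_filter.2 ⟨Finset.mem_univ _, hfix⟩
  have himg : (D.filter (fun d => (t : ZMod (k * (k + 2))) * d = d)).image (pr k) =
      F.erase c₀ := by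
    ext c
    rw [Finset.mem_image, Finset.mem_erase]
    constructor
    · rintro ⟨d, hd, rfl⟩
      have hd' := Finset.mem_filter.1 hd
      refine ⟨(hc₀ _).1 ⟨d, hd'.1, rfl⟩, Finset.mem_filter.2 ⟨Finset.mem_univ _, ?_⟩⟩
      rw [← hpr, hd'.2]
    · rintro ⟨hc, hcF⟩
      obtain ⟨d, hd, hdc⟩ := (hc₀ c).2 hc
      refine ⟨d, Finset.mem_filter.2 ⟨hd, ?_⟩, hdc⟩
      apply hD.inj _ (htD d hd) d hd
      rw [hpr, hdc]
      exact (Finset.mem_filter.1 hcF).2
  have hcard : ((D.filter (fun d => (t : ZMod (k * (k + 2))) * d = d)).image (pr k)).card =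
      (D.filter (fun d => (t : ZMod (k * (k + 2))) * d = d)).card := by
    apply Finset.card_image_of_injOn
    intro a ha b hb h
    exact hD.inj a (Finset.mem_filter.1 (Finset.mem_coe.1 ha)).1 b
      (Finset.mem_filter.1 (Finset.mem_coe.1 hb)).1 h
  rw [← hcard, himg, Finset.card_erase_add_one hc₀F, hFc]

end Pool.Agent.CAP.H76
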