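import Pool.Agent.Helper37_CAP.Stmts

/-! Squad CAP, module SBC: differences of fixed elements. -/

set_option autoImplicit false

open Finset

namespace Pool.Agent.CAP.H76

open Pool.Agent.CAP

theorem sbc : SBC := by
  intro k _ D hk hD t ht
  set K := D.filter (fun d => (t : ZMod (k * (k + 2))) * d = d) with hK
  set H := (Finset.univ : Finset (ZMod (k * (k + 2)))).filter
      (fun g => (t : ZMod (k * (k + 2))) * g = g) with hH
  have h1 : ((Finset.univ : Finset (ZMod (k * (k + 2)))).filter
      (fun g => (t : ZMod (k * (k + 2))) * g = g ∧ pr k g = 0)) =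
        H.filter (fun g => pr k g = 0) := by
    ext g
    simp [hH]
  have h2 : K.offDiag.image (fun q => q.1 - q.2) = H.filter (fun g => ¬ pr k g = 0) := by
    ext g
    rw [Finset.mem_image, Finset.mem_filter]
    constructor
    · rintro ⟨⟨a, b⟩, hab, rfl⟩
      rw [Finset.mem_offDiag] at hab
      obtain ⟨ha, hb, hne⟩ := hab
      have ha' := Finset.mem_filter.1 ha
      have hb' := Finset.mem_filter.1 hb
      refine ⟨Finset.mem_filter.2 ⟨Finset.mem_univ _, ?_⟩, ?_⟩
      · change (t : ZMod (k * (k + 2))) * (a - b) = a - b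
        rw [mul_sub, ha'.2, hb'.2]
      · intro h0
        apply hne
        apply hD.inj a ha'.1 b hb'.1
        rw [map_sub] at h0
        exact sub_eq_zero.1 h0
    · rintro ⟨hg, hp⟩
      have hg' := (Finset.mem_filter.1 hg).2
      obtain ⟨d, hd, d', hd', hdd⟩ := hD.ex g hp
      have hne : d ≠ d' := by
        intro h
        apply hp
        rw [← hdd, h, sub_self, map_zero]
      have h3 := hD.uniq d hd d' hd' _ (ht d hd) _ (ht d' hd')
        (by rw [← mul_sub, hdd, hg']) hne
      exact ⟨(d, d'), Finset.mem_offDiag.2 ⟨Finset.mem_filter.2 ⟨hd, h3.1.symm⟩,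
        Finset.mem_filter.2 ⟨hd', h3.2.symm⟩, hne⟩, hdd⟩
  have h4 : (K.offDiag.image (fun q => q.1 - q.2)).card = K.offDiag.card := by
    apply Finset.card_image_of_injOn
    rintro ⟨a, b⟩ hab ⟨c, d⟩ hcd h
    rw [Finset.mem_coe, Finset.mem_offDiag] at hab hcd
    have h5 := hD.uniq a (Finset.mem_filter.1 hab.1).1 b (Finset.mem_filter.1 hab.2.1).1
      c (Finset.mem_filter.1 hcd.1).1 d (Finset.mem_filter.1 hcd.2.1).1 h hab.2.2
    exact Prod.ext h5.1 h5.2
  have h6 := Finset.card_filter_add_card_filter_not (s := H) (fun g => pr k g = 0)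
  rw [h1, ← h6, ← h2, h4, Finset.offDiag_card, Nat.mul_sub, mul_one, add_comm]

end Pool.Agent.CAP.H76
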